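import Mathlib

set_option autoImplicit false

namespace Pool.Agent.LibTwistedSum

open Filter Topology

/-- The space of absolutely summable real sequences. -/
abbrev L1 : Type := lp (fun _ : ℕ => ℝ) 1

/-- The space of square summable real sequences. -/
abbrev L2 : Type := lp (fun _ : ℕ => ℝ) 2

lemma l1_hasSum (x : L1) : HasSum (fun i => |x i|) ‖x‖ := by
  have := lp.hasSum_norm (p := 1) (by simp) x
  simpa using this

lemma l1_sum_le (x : L1) (s : Finset ℕ) : ∑ i ∈ s, |x i| ≤ ‖x‖ :=
  sum_le_hasSum s (fun _ _ => abs_nonneg _) (l1_hasSum x)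

lemma T_summable {E : Type*} [NormedAddCommGroup E] [NormedSpace ℝ E]
    (g : ℕ → E) (C : ℝ) (hC : ∀ i, ‖g i‖ ≤ C) (x : L1) :
    Summable (fun i => ‖x i • g i‖) := by
  refine Summable.of_nonneg_of_le (fun _ => norm_nonneg _) (fun i => ?_)
    ((l1_hasSum x).summable.mul_right C)
  rw [norm_smul]
  exact mul_le_mul_of_nonneg_left (hC i) (norm_nonneg _)

/-- The bounded operator on `L1` sending the unit vectors to a bounded sequence. -/
noncomputable def T {E : Type*} [NormedAddCommGroup E] [NormedSpace ℝ E] [CompleteSpace E]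
    (g : ℕ → E) (C : ℝ) (hC : ∀ i, ‖g i‖ ≤ C) : L1 →L[ℝ] E :=
  LinearMap.mkContinuous
    { toFun := fun x => ∑' i, x i • g i
      map_add' := by
        intro x y
        rw [← Summable.tsum_add (T_summable g C hC x).of_norm (T_summable g C hC y).of_norm]
        refine tsum_congr fun i => ?_
        rw [lp.coeFn_add, Pi.add_apply, add_smul]
      map_smul' := by
        intro c x
        rw [RingHom.id_apply, ← Summable.tsum_const_smul c (T_summable g C hC x).of_norm]
        refine tsum_congr fun i => ?_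
        rw [lp.coeFn_smul, Pi.smul_apply, smul_eq_mul, mul_smul] }
    C (by
      intro x
      refine (norm_tsum_le_tsum_norm (T_summable g C hC x)).trans ?_
      have h1 : ∑' i, ‖x i • g i‖ ≤ ∑' i, |x i| * C := by
        refine Summable.tsum_le_tsum (fun i => ?_) (T_summable g C hC x)
          ((l1_hasSum x).summable.mul_right C)
        rw [norm_smul]
        exact mul_le_mul_of_nonneg_left (hC i) (norm_nonneg _)
      rw [tsum_mul_right, (l1_hasSum x).tsum_eq, mul_comm] at h1
      exact h1)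

lemma T_hasSum {E : Type*} [NormedAddCommGroup E] [NormedSpace ℝ E] [CompleteSpace E]
    (g : ℕ → E) (C : ℝ) (hC : ∀ i, ‖g i‖ ≤ C) (x : L1) :
    HasSum (fun i => x i • g i) (T g C hC x) :=
  (T_summable g C hC x).of_norm.hasSum

lemma T_norm {E : Type*} [NormedAddCommGroup E] [NormedSpace ℝ E] [CompleteSpace E]
    (g : ℕ → E) (C : ℝ) (hC : ∀ i, ‖g i‖ ≤ C) (hC0 : 0 ≤ C) (x : L1) :
    ‖T g C hC x‖ ≤ C * ‖x‖ :=
  (T g C hC).le_of_opNorm_le (LinearMap.mkContinuous_norm_le _ hC0 _) x

/-! ### The scalar function `t log t` -/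

/-- `t log t`. -/
noncomputable def h (t : ℝ) : ℝ := t * Real.log t

lemma h_cont : Continuous h := Real.continuous_mul_log

lemma h_neg (t : ℝ) : h (-t) = -h t := by
  unfold h; rw [Real.log_neg_eq_log]; ring

lemma h_zero : h 0 = 0 := by simp [h]

lemma h_add_nonneg {a b : ℝ} (ha : 0 ≤ a) (hb : 0 ≤ b) :
    |h (a + b) - h a - h b| ≤ Real.log 2 * (|a| + |b|) := by
  rw [abs_of_nonneg ha, abs_of_nonneg hb, abs_le]
  have hl2 : 0 ≤ Real.log 2 := Real.log_nonneg (by norm_num)
  constructor
  · have h1 : h a + h b ≤ h (a + b) := by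
      unfold h
      have e1 : a * Real.log a ≤ a * Real.log (a + b) := by
        rcases ha.eq_or_lt with rfl | ha'
        · simp
        · exact mul_le_mul_of_nonneg_left (Real.log_le_log ha' (by linarith)) ha
      have e2 : b * Real.log b ≤ b * Real.log (a + b) := by
        rcases hb.eq_or_lt with rfl | hb'
        · simp
        · exact mul_le_mul_of_nonneg_left (Real.log_le_log hb' (by linarith)) hb
      nlinarith
    have : 0 ≤ Real.log 2 * (a + b) := mul_nonneg hl2 (by linarith)
    linarith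
  · have hconv := Real.convexOn_mul_log.2 (Set.mem_Ici.mpr ha) (Set.mem_Ici.mpr hb)
      (by norm_num : (0 : ℝ) ≤ 1 / 2) (by norm_num : (0 : ℝ) ≤ 1 / 2) (by norm_num)
    simp only [smul_eq_mul] at hconv
    rcases (add_nonneg ha hb).eq_or_lt with h0 | h0
    · have ha0 : a = 0 := by linarith
      have hb0 : b = 0 := by linarith
      subst ha0; subst hb0
      simp [h]
    · have e : 1 / 2 * a + 1 / 2 * b = (a + b) / 2 := by ring
      rw [e, Real.log_div h0.ne' (by norm_num)] at hconv
      unfold h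
      nlinarith

lemma h_add (a b : ℝ) : |h (a + b) - h a - h b| ≤ Real.log 2 * (|a| + |b|) := by
  have hl2 : 0 ≤ Real.log 2 := Real.log_nonneg (by norm_num)
  -- mixed signs
  have mixed : ∀ a b : ℝ, 0 ≤ a → b ≤ 0 → 0 ≤ a + b →
      |h (a + b) - h a - h b| ≤ Real.log 2 * (|a| + |b|) := by
    intro a b ha hb hab
    have h1 := h_add_nonneg hab (neg_nonneg.mpr hb)
    have e : a + b + -b = a := by ring
    rw [e, h_neg] at h1
    have e2 : h a - h (a + b) - -h b = -(h (a + b) - h a - h b) := by ring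
    rw [e2, abs_neg] at h1
    refine h1.trans (mul_le_mul_of_nonneg_left ?_ hl2)
    rw [abs_of_nonneg hab, abs_of_nonneg ha, abs_neg, abs_of_nonpos hb]
    linarith
  have mixed' : ∀ a b : ℝ, 0 ≤ a → b ≤ 0 → a + b ≤ 0 →
      |h (a + b) - h a - h b| ≤ Real.log 2 * (|a| + |b|) := by
    intro a b ha hb hab
    have h1 := mixed (-b) (-a) (by linarith) (by linarith) (by linarith)
    have e : -b + -a = -(a + b) := by ring
    rw [e, h_neg, h_neg, h_neg, abs_neg, abs_neg] at h1
    have e2 : -h (a + b) - -h b - -h a = -(h (a + b) - h a - h b) := by ring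
    rw [e2, abs_neg, add_comm |b| |a|] at h1
    exact h1
  rcases le_total 0 a with ha | ha <;> rcases le_total 0 b with hb | hb
  · exact h_add_nonneg ha hb
  · rcases le_total 0 (a + b) with hab | hab
    · exact mixed a b ha hb hab
    · exact mixed' a b ha hb hab
  · have key : ∀ a b : ℝ, h (a + b) - h a - h b = h (b + a) - h b - h a := by
      intro a b; rw [add_comm a b]; ring
    rw [key, add_comm |a| |b|]
    rcases le_total 0 (b + a) with hab | hab
    · exact mixed b a hb ha hab
    · exact mixed' b a hb ha hab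
  · have h1 := h_add_nonneg (neg_nonneg.mpr ha) (neg_nonneg.mpr hb)
    have e : -a + -b = -(a + b) := by ring
    rw [e, h_neg, h_neg, h_neg, abs_neg, abs_neg] at h1
    have e2 : -h (a + b) - -h a - -h b = -(h (a + b) - h a - h b) := by ring
    rw [e2, abs_neg] at h1
    exact h1

lemma h_smul (c t : ℝ) : h (c * t) - c * h t = c * Real.log c * t := by
  unfold h
  by_cases hc : c = 0
  · subst hc; simp
  by_cases ht : t = 0
  · subst ht; simp
  rw [Real.log_mul hc ht]; ring

lemma h_sq_le {t : ℝ} (ht : |t| ≤ 1) : |h t| ^ 2 ≤ 4 * |t| := by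
  by_cases h0 : t = 0
  · subst h0; simp [h]
  obtain ⟨u, hu⟩ : ∃ u : ℝ, u = |t| := ⟨_, rfl⟩
  have hpos : 0 < u := by rw [hu]; exact abs_pos.mpr h0
  rw [← hu] at ht ⊢
  have h1 := Real.abs_log_mul_self_rpow_lt u (1 / 2) hpos ht (by norm_num)
  have h2 : |h t| = u * |Real.log u| := by
    unfold h; rw [abs_mul, hu, Real.log_abs]
  have h3 : (u ^ (1 / 2 : ℝ)) ^ 2 = u := by
    rw [← Real.rpow_natCast, ← Real.rpow_mul hpos.le]; norm_num
  rw [abs_mul, abs_of_nonneg (a := u ^ (1 / 2 : ℝ)) (by positivity)] at h1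
  have h4 : (|Real.log u| * u ^ (1 / 2 : ℝ)) ^ 2 ≤ 2 ^ 2 := by
    apply pow_le_pow_left₀ (by positivity)
    have : (1 : ℝ) / (1 / 2) = 2 := by norm_num
    linarith
  rw [mul_pow, h3] at h4
  rw [h2, mul_pow]
  have h5 : u ^ 2 * |Real.log u| ^ 2 = u * (|Real.log u| ^ 2 * u) := by ring
  rw [h5]
  nlinarith

/-- The sequence `(x_i log x_i)` is square summable for absolutely summable `x`. -/
lemma F_mem (x : L1) : Memℓp (fun i => h (x i)) 2 := by
  apply memℓp_gen
  have hev : ∀ᶠ i in cofinite, ‖‖h (x i)‖ ^ (2 : ENNReal).toReal‖ ≤ 4 * |x i| := by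
    have h1 : Tendsto (fun i => |x i|) cofinite (𝓝 0) := (l1_hasSum x).summable.tendsto_cofinite_zero
    filter_upwards [h1.eventually_le_const (u := (1 : ℝ)) (by norm_num)] with i hi
    have h2 := h_sq_le hi
    rw [Real.norm_of_nonneg (by positivity), Real.norm_eq_abs]
    simpa using h2
  exact Summable.of_norm_bounded_eventually ((l1_hasSum x).summable.mul_left 4) hev

/-- The map `x ↦ (x_i log x_i)`. -/
noncomputable def F (x : L1) : L2 := ⟨fun i => h (x i), F_mem x⟩

lemma F_apply (x : L1) (i : ℕ) : F x i = h (x i) := rfl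

/-! ### Coordinates of the operator `T`, separability -/

lemma eval_continuous {p : ENNReal} [Fact (1 ≤ p)] (i : ℕ) :
    Continuous (fun x : lp (fun _ : ℕ => ℝ) p => x i) :=
  (lp.lipschitzWith_one_eval (E := fun _ : ℕ => ℝ) p i).continuous

lemma separable_lp {p : ENNReal} [Fact (1 ≤ p)] (hp : p ≠ ⊤) :
    TopologicalSpace.SeparableSpace (lp (fun _ : ℕ => ℝ) p) := by
  rw [← TopologicalSpace.isSeparable_univ_iff]
  have h1 : TopologicalSpace.IsSeparable
      (Set.range (fun i : ℕ => (lp.single p i (1 : ℝ) : lp (fun _ : ℕ => ℝ) p))) :=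
    (Set.countable_range _).isSeparable
  have h2 := (h1.span (R := ℝ)).closure
  refine h2.mono fun x _ => ?_
  have h3 := lp.hasSum_single hp x
  refine mem_closure_of_tendsto h3 (Eventually.of_forall fun s => ?_)
  refine Submodule.sum_mem _ fun i _ => ?_
  have : (lp.single p i (x i) : lp (fun _ : ℕ => ℝ) p) = x i • lp.single p i (1 : ℝ) := by
    rw [← lp.single_smul]; simp
  rw [this]
  exact Submodule.smul_mem _ _ (Submodule.subset_span ⟨i, rfl⟩)

lemma norm_single_one (p : ENNReal) [Fact (1 ≤ p)] (i : ℕ) :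
    ‖(lp.single p i (1 : ℝ) : lp (fun _ : ℕ => ℝ) p)‖ = 1 := by
  rw [lp.norm_single (zero_lt_one.trans_le Fact.out)]; simp

/-- The inclusion of absolutely summable in square summable sequences. -/
noncomputable def I : L1 →L[ℝ] L2 :=
  T (fun i => (lp.single 2 i (1 : ℝ) : L2)) 1 (fun i => (norm_single_one 2 i).le)

lemma T_single {p : ENNReal} [Fact (1 ≤ p)] (hC : ∀ i : ℕ,
    ‖(lp.single p i (1 : ℝ) : lp (fun _ : ℕ => ℝ) p)‖ ≤ 1) (x : L1) (j : ℕ) :
    T (fun i => (lp.single p i (1 : ℝ) : lp (fun _ : ℕ => ℝ) p)) 1 hC x j = x j := by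
  have h1 := T_hasSum (fun i => (lp.single p i (1 : ℝ) : lp (fun _ : ℕ => ℝ) p)) 1 hC x
  have h2 := (h1.mapL (lp.evalCLM ℝ (fun _ : ℕ => ℝ) p j))
  have h3 : HasSum (fun i => x i * (Pi.single i (1 : ℝ) : ℕ → ℝ) j)
      (T (fun i => (lp.single p i (1 : ℝ) : lp (fun _ : ℕ => ℝ) p)) 1 hC x j) := h2
  have h4 : HasSum (fun i => x i * (Pi.single i (1 : ℝ) : ℕ → ℝ) j) (x j) := by
    have := hasSum_single (f := fun i => x i * (Pi.single i (1 : ℝ) : ℕ → ℝ) j) j (by
      intro i hi
      rw [Pi.single_eq_of_ne (Ne.symm hi), mul_zero])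
    simpa using this
  exact h3.unique h4

lemma I_apply (x : L1) (j : ℕ) : I x j = x j := T_single _ x j

lemma I_norm (x : L1) : ‖I x‖ ≤ ‖x‖ := by
  have := T_norm (fun i => (lp.single 2 i (1 : ℝ) : L2)) 1
    (fun i => (norm_single_one 2 i).le) zero_le_one x
  rwa [one_mul] at this

/-- The injection of the Banach space `M`. -/
noncomputable def iota : L1 →ₗ[ℝ] L2 × L1 := LinearMap.inl ℝ L2 L1 ∘ₗ I.toLinearMap

lemma iota_apply (x : L1) : iota x = (I x, 0) := rfl

lemma iota_injective : Function.Injective iota := by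
  intro x y hxy
  rw [iota_apply, iota_apply] at hxy
  have h1 : I x = I y := congrArg Prod.fst hxy
  apply lp.ext
  funext j
  rw [← I_apply x j, ← I_apply y j, h1]

lemma iota_norm (x : L1) : ‖iota x‖ ≤ ‖x‖ := by
  rw [iota_apply, Prod.norm_mk, norm_zero, max_eq_left (norm_nonneg _)]
  exact I_norm x

/-- The map `φ`. -/
noncomputable def phi (x : L1) : L2 × L1 := (F x, x)

lemma phi_measurable : @Measurable L1 (L2 × L1) (borel L1) (borel (L2 × L1)) phi := by
  let _ : MeasurableSpace L1 := borel L1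
  have _ : BorelSpace L1 := ⟨rfl⟩
  let _ : MeasurableSpace (L2 × L1) := borel (L2 × L1)
  have _ : BorelSpace (L2 × L1) := ⟨rfl⟩
  have hF : ∀ x : L1, Tendsto (fun n => ∑ i ∈ Finset.range n, (lp.single 2 i (h (x i)) : L2))
      atTop (𝓝 (F x)) := by
    intro x
    exact (lp.hasSum_single (p := 2) (by simp) (F x)).tendsto_sum_nat
  have hc : ∀ n, Continuous (fun x : L1 =>
      ((∑ i ∈ Finset.range n, (lp.single 2 i (h (x i)) : L2)), x)) := by
    intro n
    refine Continuous.prodMk (continuous_finsetSum _ fun i _ => ?_) continuous_id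
    exact (lp.isometry_single (E := fun _ : ℕ => ℝ) (p := 2) i).continuous.comp
      (h_cont.comp (eval_continuous i))
  refine measurable_of_tendsto_metrizable (f := fun n (x : L1) =>
      ((∑ i ∈ Finset.range n, (lp.single 2 i (h (x i)) : L2)), x)) (fun n => (hc n).measurable) ?_
  rw [tendsto_pi_nhds]
  intro x
  exact (hF x).prodMk_nhds tendsto_const_nhds

lemma phi_lin (a b : ℝ) (x y : L1) :
    phi (a • x + b • y) - (a • phi x + b • phi y) ∈ Set.range iota := by
  have key : ∀ i, |h (a * x i + b * y i) - (a * h (x i) + b * h (y i))| ≤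
      (Real.log 2 * |a| + |a * Real.log a|) * |x i| +
      (Real.log 2 * |b| + |b * Real.log b|) * |y i| := by
    intro i
    have e1 := h_add (a * x i) (b * y i)
    have e2 := h_smul a (x i)
    have e3 := h_smul b (y i)
    have e4 : h (a * x i + b * y i) - (a * h (x i) + b * h (y i)) =
        (h (a * x i + b * y i) - h (a * x i) - h (b * y i)) + (h (a * x i) - a * h (x i)) +
        (h (b * y i) - b * h (y i)) := by ring
    rw [e4, e2, e3]
    refine (abs_add_three _ _ _).trans ?_
    rw [abs_mul (a * Real.log a), abs_mul (b * Real.log b)]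
    rw [abs_mul a (x i), abs_mul b (y i)] at e1
    linarith
  have hs : Summable (fun i => (Real.log 2 * |a| + |a * Real.log a|) * |x i| +
      (Real.log 2 * |b| + |b * Real.log b|) * |y i|) :=
    ((l1_hasSum x).summable.mul_left _).add ((l1_hasSum y).summable.mul_left _)
  have hmem : Memℓp (fun i => h (a * x i + b * y i) - (a * h (x i) + b * h (y i))) 1 := by
    apply memℓp_gen
    refine Summable.of_nonneg_of_le (fun _ => by positivity) (fun i => ?_) hs
    simpa using key i
  refine ⟨⟨_, hmem⟩, ?_⟩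
  rw [iota_apply]
  apply Prod.ext
  · apply lp.ext
    funext j
    rw [I_apply]
    rfl
  · simp [phi]

/-! ### The main contradiction -/

/-- If `G : ℓ¹ → ℓ²` is continuous linear, `G x - F x` cannot be absolutely summable for all `x`. -/
lemma no_linear_selection (G : L1 →L[ℝ] L2)
    (hG : ∀ x : L1, Summable (fun j => |G x j - h (x j)|)) : False := by
  -- Baire category
  let A : ℕ → Set L1 := fun N => {x | ∀ n, ∑ j ∈ Finset.range n, |G x j - h (x j)| ≤ N}
  have hAc : ∀ N, IsClosed (A N) := by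
    intro N
    have : A N = ⋂ n, {x : L1 | ∑ j ∈ Finset.range n, |G x j - h (x j)| ≤ N} := by
      ext x; simp [A]
    rw [this]
    refine isClosed_iInter fun n => isClosed_le ?_ continuous_const
    refine continuous_finsetSum _ fun j _ => ?_
    exact (((eval_continuous j).comp G.continuous).sub (h_cont.comp (eval_continuous j))).abs
  have hAu : ⋃ N, A N = Set.univ := by
    rw [Set.eq_univ_iff_forall]
    intro x
    obtain ⟨N, hN⟩ := exists_nat_ge (∑' j, |G x j - h (x j)|)
    refine Set.mem_iUnion.mpr ⟨N, fun n => ?_⟩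
    exact ((hG x).sum_le_tsum _ (fun _ _ => abs_nonneg _)).trans hN
  obtain ⟨N, x0, hx0⟩ := nonempty_interior_of_iUnion_of_closed hAc hAu
  rw [mem_interior_iff_mem_nhds, Metric.mem_nhds_iff] at hx0
  obtain ⟨r, hr, hball⟩ := hx0
  have hl2 : 0 ≤ Real.log 2 := Real.log_nonneg (by norm_num)
  obtain ⟨K, hK⟩ : ∃ K : ℝ, K = 2 * N + Real.log 2 * (‖x0‖ + r) := ⟨_, rfl⟩
  have hK0 : 0 ≤ K := by rw [hK]; positivity
  have key : ∀ y : L1, ‖y‖ < r → ∀ n, ∑ j ∈ Finset.range n, |G y j - h (y j)| ≤ K := by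
    intro y hy n
    have h1 : ∑ j ∈ Finset.range n, |G (x0 + y) j - h ((x0 + y) j)| ≤ N := by
      have : x0 + y ∈ A N := hball (by simpa using hy)
      exact this n
    have h2 : ∑ j ∈ Finset.range n, |G x0 j - h (x0 j)| ≤ N := by
      have : x0 ∈ A N := hball (Metric.mem_ball_self hr)
      exact this n
    have h3 : ∀ j, |G y j - h (y j)| ≤ |G (x0 + y) j - h ((x0 + y) j)| + |G x0 j - h (x0 j)|
        + Real.log 2 * (|x0 j| + |y j|) := by
      intro j
      have e1 := h_add (x0 j) (y j)
      have e2 : G y j = G (x0 + y) j - G x0 j := by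
        rw [map_add, lp.coeFn_add, Pi.add_apply]; ring
      have e3 : (x0 + y) j = x0 j + y j := by rw [lp.coeFn_add, Pi.add_apply]
      rw [e3, e2]
      have e4 : G (x0 + y) j - G x0 j - h (y j) = (G (x0 + y) j - h (x0 j + y j)) +
          (-(G x0 j - h (x0 j))) + (h (x0 j + y j) - h (x0 j) - h (y j)) := by ring
      rw [e4]
      refine (abs_add_three _ _ _).trans ?_
      rw [abs_neg]
      linarith
    have h4 : ∑ j ∈ Finset.range n, |x0 j| ≤ ‖x0‖ := l1_sum_le x0 _
    have h5 : ∑ j ∈ Finset.range n, |y j| ≤ ‖y‖ := l1_sum_le y _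
    calc ∑ j ∈ Finset.range n, |G y j - h (y j)|
        ≤ ∑ j ∈ Finset.range n, (|G (x0 + y) j - h ((x0 + y) j)| + |G x0 j - h (x0 j)|
        + Real.log 2 * (|x0 j| + |y j|)) := Finset.sum_le_sum fun j _ => h3 j
      _ = ∑ j ∈ Finset.range n, |G (x0 + y) j - h ((x0 + y) j)| +
          ∑ j ∈ Finset.range n, |G x0 j - h (x0 j)| +
          Real.log 2 * (∑ j ∈ Finset.range n, |x0 j| + ∑ j ∈ Finset.range n, |y j|) := by
          rw [Finset.sum_add_distrib, Finset.sum_add_distrib, ← Finset.mul_sum,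
            Finset.sum_add_distrib]
      _ ≤ K := by
          rw [hK]
          have := mul_le_mul_of_nonneg_left (add_le_add h4 (h5.trans hy.le)) hl2
          linarith
  -- unit vectors
  obtain ⟨ρ, hρ⟩ : ∃ ρ : ℝ, ρ = r / 2 := ⟨_, rfl⟩
  have hρ0 : 0 < ρ := by rw [hρ]; positivity
  have hρr : ρ < r := by rw [hρ]; linarith
  obtain ⟨e, he⟩ : ∃ e : ℕ → L1, ∀ i, e i = lp.single 1 i (1 : ℝ) := ⟨_, fun _ => rfl⟩
  have hen : ∀ i, ‖e i‖ = 1 := fun i => by rw [he]; exact norm_single_one 1 i
  have hei : ∀ i j, e i j = if j = i then 1 else 0 := by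
    intro i j
    rw [he, lp.single_apply, Pi.single_apply]
  obtain ⟨K2, hK2⟩ : ∃ K2 : ℝ, K2 = (K + |h ρ|) / ρ := ⟨_, rfl⟩
  have hb : ∀ i n, ∑ j ∈ Finset.range n, |G (e i) j| ≤ K2 := by
    intro i n
    have h1 := key (ρ • e i) (by rw [norm_smul, hen, mul_one, Real.norm_of_nonneg hρ0.le]; exact hρr) n
    have h2 : ∀ j, ρ * |G (e i) j| ≤ |G (ρ • e i) j - h ((ρ • e i) j)| +
        (if j = i then |h ρ| else 0) := by
      intro j
      have e1 : G (ρ • e i) j = ρ * G (e i) j := by
        rw [map_smul, lp.coeFn_smul, Pi.smul_apply, smul_eq_mul]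
      have e2 : (ρ • e i) j = if j = i then ρ else 0 := by
        rw [lp.coeFn_smul, Pi.smul_apply, smul_eq_mul, hei]
        split_ifs <;> simp
      rw [e1, e2]
      have e3 : ρ * |G (e i) j| = |ρ * G (e i) j| := by rw [abs_mul, abs_of_pos hρ0]
      rw [e3]
      split_ifs with hji
      · have := abs_add_le (ρ * G (e i) j - h ρ) (h ρ)
        rwa [sub_add_cancel] at this
      · rw [h_zero, sub_zero, add_zero]
    have h3 : ρ * ∑ j ∈ Finset.range n, |G (e i) j| ≤ K + |h ρ| := by
      rw [Finset.mul_sum]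
      refine (Finset.sum_le_sum fun j _ => h2 j).trans ?_
      rw [Finset.sum_add_distrib]
      refine add_le_add h1 ?_
      rw [Finset.sum_ite_eq']
      split_ifs
      · exact le_rfl
      · exact abs_nonneg _
    rw [hK2, le_div_iff₀ hρ0, mul_comm]
    exact h3
  -- averages of unit vectors
  have hfin : ∀ n : ℕ, 0 < n → ρ * |Real.log (ρ / n)| ≤ ρ * K2 + K := by
    intro n hn
    have hn0 : (0 : ℝ) < n := by exact_mod_cast hn
    obtain ⟨y, hy⟩ : ∃ y : L1, y = (ρ / n) • ∑ i ∈ Finset.range n, e i := ⟨_, rfl⟩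
    have hyn : ‖y‖ < r := by
      refine lt_of_le_of_lt ?_ hρr
      rw [hy, norm_smul, Real.norm_of_nonneg (by positivity)]
      have : ‖∑ i ∈ Finset.range n, e i‖ ≤ n := by
        refine (norm_sum_le _ _).trans ?_
        simp [hen]
      calc ρ / n * ‖∑ i ∈ Finset.range n, e i‖ ≤ ρ / n * n :=
            mul_le_mul_of_nonneg_left this (by positivity)
        _ = ρ := by field_simp
    have h1 := key y hyn n
    have h2 : ∀ j ∈ Finset.range n, y j = ρ / n := by
      intro j hj
      rw [hy, lp.coeFn_smul, Pi.smul_apply, smul_eq_mul, lp.coeFn_sum, Finset.sum_apply]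
      have : ∑ i ∈ Finset.range n, e i j = 1 := by
        rw [Finset.sum_congr rfl (fun i _ => hei i j), Finset.sum_ite_eq, if_pos hj]
      rw [this, mul_one]
    have h3 : ∀ j, |G y j| ≤ (ρ / n) * ∑ i ∈ Finset.range n, |G (e i) j| := by
      intro j
      have : G y j = (ρ / n) * ∑ i ∈ Finset.range n, G (e i) j := by
        rw [hy, map_smul, map_sum, lp.coeFn_smul, Pi.smul_apply, smul_eq_mul, lp.coeFn_sum,
          Finset.sum_apply]
      rw [this, abs_mul, abs_of_nonneg (a := ρ / n) (by positivity)]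
      exact mul_le_mul_of_nonneg_left (Finset.abs_sum_le_sum_abs _ _) (by positivity)
    have h4 : ∑ j ∈ Finset.range n, |G y j| ≤ ρ * K2 := by
      refine (Finset.sum_le_sum fun j _ => h3 j).trans ?_
      rw [← Finset.mul_sum, Finset.sum_comm]
      have : ∑ i ∈ Finset.range n, ∑ j ∈ Finset.range n, |G (e i) j| ≤ n * K2 := by
        refine (Finset.sum_le_sum fun i _ => hb i n).trans ?_
        simp
      calc ρ / n * ∑ i ∈ Finset.range n, ∑ j ∈ Finset.range n, |G (e i) j|
          ≤ ρ / n * (n * K2) := mul_le_mul_of_nonneg_left this (by positivity)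
        _ = ρ * K2 := by field_simp
    have h5 : ∑ j ∈ Finset.range n, |h (y j)| = ρ * |Real.log (ρ / n)| := by
      rw [Finset.sum_congr rfl (fun j hj => by rw [h2 j hj]), Finset.sum_const,
        Finset.card_range, nsmul_eq_mul]
      unfold h
      rw [abs_mul, abs_of_nonneg (a := ρ / n) (by positivity)]
      field_simp
    have h6 : ∑ j ∈ Finset.range n, |h (y j)| ≤ ∑ j ∈ Finset.range n, |G y j| +
        ∑ j ∈ Finset.range n, |G y j - h (y j)| := by
      rw [← Finset.sum_add_distrib]
      refine Finset.sum_le_sum fun j _ => ?_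
      have := abs_sub (G y j) (G y j - h (y j))
      rwa [sub_sub_cancel] at this
    rw [h5] at h6
    linarith
  have hlim : Tendsto (fun n : ℕ => ρ * |Real.log (ρ / n)|) atTop atTop := by
    apply Tendsto.const_mul_atTop hρ0
    apply tendsto_abs_atBot_atTop.comp
    apply Real.tendsto_log_nhdsGT_zero.comp
    rw [tendsto_nhdsWithin_iff]
    refine ⟨tendsto_const_div_atTop_nhds_zero_nat ρ, ?_⟩
    filter_upwards [eventually_gt_atTop 0] with n hn
    have hn0 : (0 : ℝ) < n := by exact_mod_cast hn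
    exact Set.mem_Ioi.mpr (by positivity)
  obtain ⟨n, hn1, hn2⟩ := ((hlim.eventually_gt_atTop (ρ * K2 + K)).and
    (eventually_gt_atTop 0)).exists
  exact absurd (hfin n hn2) (not_le.mpr hn1)

/-- The set `V = φ(X) + M` is not the range of a continuous linear map from a Banach space. -/
lemma no_banach (W : Type) [NormedAddCommGroup W] [NormedSpace ℝ W] [CompleteSpace W]
    (J : W →L[ℝ] L2 × L1) (hJ : Set.range J = {v | ∃ x z, v = phi x + iota z}) : False := by
  obtain ⟨π, hπ⟩ : ∃ π : W →L[ℝ] L1, π = (ContinuousLinearMap.snd ℝ L2 L1).comp J := ⟨_, rfl⟩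
  have hπa : ∀ w, π w = (J w).2 := fun w => by rw [hπ]; rfl
  have hsurj : Function.Surjective π := by
    intro x
    have : phi x + iota 0 ∈ Set.range J := by rw [hJ]; exact ⟨x, 0, rfl⟩
    obtain ⟨w, hw⟩ := this
    refine ⟨w, ?_⟩
    rw [hπa, hw, map_zero, add_zero]
    rfl
  obtain ⟨C, hC0, hC⟩ := π.exists_preimage_norm_le hsurj
  choose w hw1 hw2 using fun i : ℕ => hC (lp.single 1 i (1 : ℝ) : L1)
  have hw3 : ∀ i, ‖w i‖ ≤ C := by
    intro i
    have := hw2 i
    rwa [norm_single_one 1 i, mul_one] at this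
  obtain ⟨U, hU⟩ : ∃ U : L1 →L[ℝ] W, ∀ x, HasSum (fun i => x i • w i) (U x) :=
    ⟨T w C hw3, T_hasSum w C hw3⟩
  have hπU : ∀ x, π (U x) = x := by
    intro x
    have h1 := (hU x).mapL π
    have h2 := lp.hasSum_single (p := 1) (by simp) x
    refine h1.unique ?_
    convert h2 using 2 with i
    rw [map_smul, hw1, ← lp.single_smul, smul_eq_mul, mul_one]
  refine no_linear_selection (((ContinuousLinearMap.fst ℝ L2 L1).comp J).comp U) fun x => ?_
  have h1 : J (U x) ∈ Set.range J := ⟨_, rfl⟩
  rw [hJ] at h1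
  obtain ⟨x', z, hxz⟩ := h1
  have h2 : (J (U x)).2 = x' := by
    rw [hxz, iota_apply]
    change x' + 0 = x'
    rw [add_zero]
  have h3 : x' = x := by rw [← h2, ← hπa, hπU]
  subst h3
  have h4 : (J (U x')).1 = F x' + I z := by
    rw [hxz, iota_apply]; rfl
  have h5 : ∀ j, (((ContinuousLinearMap.fst ℝ L2 L1).comp J).comp U) x' j - h (x' j) = z j := by
    intro j
    change (J (U x')).1 j - h (x' j) = z j
    rw [h4, lp.coeFn_add, Pi.add_apply, F_apply, I_apply]
    ring
  simp only [h5]
  exact (l1_hasSum z).summable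

/-- There are separable Banach spaces `X`, `Y`, a separable Banach space `Z` with a linear
injection `ι : Z → Y` of norm at most one (so `M = ι Z` is a linear subspace of `Y` carrying a
complete norm dominating the norm of `Y`), and a Borel map `φ : X → Y` that is linear modulo
`M`, such that `V = φ(X) + M` is not the image of any Banach space under an injective continuous
linear map to `Y`. -/
theorem main :
    ∃ (X Y Z : Type)
      (_ : NormedAddCommGroup X) (_ : NormedSpace ℝ X) (_ : CompleteSpace X)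
      (_ : TopologicalSpace.SeparableSpace X)
      (_ : NormedAddCommGroup Y) (_ : NormedSpace ℝ Y) (_ : CompleteSpace Y)
      (_ : TopologicalSpace.SeparableSpace Y)
      (_ : NormedAddCommGroup Z) (_ : NormedSpace ℝ Z) (_ : CompleteSpace Z)
      (_ : TopologicalSpace.SeparableSpace Z)
      (ι : Z →ₗ[ℝ] Y) (φ : X → Y),
      Function.Injective ι ∧ (∀ z, ‖ι z‖ ≤ ‖z‖) ∧
      @Measurable X Y (borel X) (borel Y) φ ∧
      (∀ (a b : ℝ) (x y : X), φ (a • x + b • y) - (a • φ x + b • φ y) ∈ Set.range ι) ∧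
      ¬ ∃ (W : Type) (_ : NormedAddCommGroup W) (_ : NormedSpace ℝ W) (_ : CompleteSpace W)
        (J : W →L[ℝ] Y), Function.Injective J ∧
          Set.range J = {v | ∃ (x : X) (z : Z), v = φ x + ι z} := by
  have : TopologicalSpace.SeparableSpace L1 := separable_lp (by simp)
  have : TopologicalSpace.SeparableSpace L2 := separable_lp (by simp)
  refine ⟨L1, L2 × L1, L1, inferInstance, inferInstance, inferInstance, inferInstance,
    inferInstance, inferInstance, inferInstance, inferInstance, inferInstance, inferInstance,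
    inferInstance, inferInstance, iota, phi, iota_injective, iota_norm, phi_measurable, phi_lin,
    ?_⟩
  rintro ⟨W, _, _, _, J, _, hJ⟩
  exact no_banach W J hJ

end Pool.Agent.LibTwistedSum
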